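import Pool.Agent.Q193.Torse8

set_option autoImplicit false

open scoped Manifold ContDiff

namespace Pool.Agent.Results.MP_81590e_gt.TorseBECP

open Q193.Torse

/-- Every `C¹`-smooth torse in Euclidean 3-space is a surface of bounded extrinsic curvature in
the sense of Pogorelov. The surface is given by a `C¹` immersion `f` of an arbitrary 2-manifold
`M` of class `C¹`. -/
theorem result.{u} (M : Type u) [TopologicalSpace M] [ChartedSpace E2 M] [IsManifold (𝓡 2) 1 M]
    (f : M → E3) (hf : IsC1Surface f) (ht : IsTorse f) : IsBECP f :=
  torse_becp hf ht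

end Pool.Agent.Results.MP_81590e_gt.TorseBECP
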